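import Mathlib

set_option autoImplicit false
set_option linter.unusedSectionVars false

namespace Pool.Agent.Results.MP_42f98c_gt.AllMetrizableGroups

open Set Topology

/-- `A` is a Sigma-subset of `K`: the preimage of the Sigma-product under an embedding of `K`
into a power of the line. -/
def IsSigmaSubset {K : Type} [TopologicalSpace K] (A : Set K) : Prop :=
  ∃ (Γ : Type) (φ : K → (Γ → ℝ)), IsEmbedding φ ∧
    A = φ ⁻¹' {x : Γ → ℝ | {γ : Γ | x γ ≠ 0}.Countable}

/-- Closing-off lemma for the Sigma-part of a compact subset of a power of the line. -/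
theorem key {K Γ : Type*} [TopologicalSpace K] [CompactSpace K] (e : K → Γ → ℝ)
    (he : IsEmbedding e) (D : Set (K × K))
    (hD : ∀ d ∈ D, {γ | e d.1 γ ≠ 0}.Countable ∧ {γ | e d.2 γ ≠ 0}.Countable)
    (l : K) (hl : (l, l) ∈ closure D) :
    ∃ c : K, {γ | e c γ ≠ 0}.Countable ∧
      ∃ D' : Set (K × K), D' ⊆ D ∧ D'.Countable ∧ (c, c) ∈ closure D' := by
  classical
  have hcont : Continuous e := he.continuous
  -- choose approximations
  have happ : ∀ (F : Finset Γ) (n : ℕ), ∃ d ∈ D, ∀ γ ∈ F,
      |e d.1 γ - e l γ| < 1 / ((n : ℝ) + 1) ∧ |e d.2 γ - e l γ| < 1 / ((n : ℝ) + 1) := by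
    intro F n
    have hpos : (0 : ℝ) < 1 / ((n : ℝ) + 1) := Nat.one_div_pos_of_nat
    have hopen : IsOpen {d : K × K | ∀ γ ∈ F,
        |e d.1 γ - e l γ| < 1 / ((n : ℝ) + 1) ∧ |e d.2 γ - e l γ| < 1 / ((n : ℝ) + 1)} := by
      have : {d : K × K | ∀ γ ∈ F,
        |e d.1 γ - e l γ| < 1 / ((n : ℝ) + 1) ∧ |e d.2 γ - e l γ| < 1 / ((n : ℝ) + 1)} =
        ⋂ γ ∈ F, {d : K × K | |e d.1 γ - e l γ| < 1 / ((n : ℝ) + 1) ∧
          |e d.2 γ - e l γ| < 1 / ((n : ℝ) + 1)} := by
        ext d; simp
      rw [this]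
      refine isOpen_biInter_finset ?_
      intro γ _
      have h1 : Continuous fun d : K × K => |e d.1 γ - e l γ| := by fun_prop
      have h2 : Continuous fun d : K × K => |e d.2 γ - e l γ| := by fun_prop
      exact (isOpen_lt h1 continuous_const).inter (isOpen_lt h2 continuous_const)
    have hmem : (l, l) ∈ {d : K × K | ∀ γ ∈ F,
        |e d.1 γ - e l γ| < 1 / ((n : ℝ) + 1) ∧ |e d.2 γ - e l γ| < 1 / ((n : ℝ) + 1)} := by
      intro γ _
      simp only [sub_self, abs_zero]
      exact ⟨hpos, hpos⟩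
    obtain ⟨d, hd1, hd2⟩ := mem_closure_iff.1 hl _ hopen hmem
    exact ⟨d, hd2, hd1⟩
  choose d hdD hdF using happ
  -- closing off
  let S : Finset Γ → ℕ → Set Γ := fun F n =>
    {γ | e (d F n).1 γ ≠ 0} ∪ {γ | e (d F n).2 γ ≠ 0}
  have hS : ∀ F n, (S F n).Countable := fun F n =>
    (hD _ (hdD F n)).1.union (hD _ (hdD F n)).2
  let step : Set Γ → Set Γ := fun I => I ∪ ⋃ F ∈ {F : Finset Γ | (F : Set Γ) ⊆ I}, ⋃ n, S F n
  have hcntF : ∀ I : Set Γ, I.Countable → {F : Finset Γ | (F : Set Γ) ⊆ I}.Countable := by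
    intro I hI
    have h1 : {t : Set Γ | t.Finite ∧ t ⊆ I}.Countable := countable_ofPred_finite_subset hI
    refine MapsTo.countable_of_injOn (f := fun F : Finset Γ => (F : Set Γ)) (t := _) ?_ ?_ h1
    · intro F hF
      exact ⟨F.finite_toSet, hF⟩
    · intro F _ G _ h
      exact Finset.coe_injective h
  have hstep : ∀ I : Set Γ, I.Countable → (step I).Countable := by
    intro I hI
    refine hI.union ((hcntF I hI).biUnion ?_)
    intro F _
    exact countable_iUnion fun n => hS F n
  let J : ℕ → Set Γ := fun k => step^[k] ∅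
  have hJ0 : J 0 = ∅ := rfl
  have hJs : ∀ k, J (k + 1) = step (J k) := fun k => Function.iterate_succ_apply' step k ∅
  have hJc : ∀ k, (J k).Countable := by
    intro k
    induction k with
    | zero => rw [hJ0]; exact countable_empty
    | succ k ih => rw [hJs]; exact hstep _ ih
  have hJmono : Monotone J := by
    refine monotone_nat_of_le_succ ?_
    intro k
    rw [hJs]
    exact subset_union_left
  let I : Set Γ := ⋃ k, J k
  have hIc : I.Countable := countable_iUnion hJc
  have hIclosed : ∀ (F : Finset Γ), (F : Set Γ) ⊆ I → ∀ n, S F n ⊆ I := by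
    intro F hF n
    obtain ⟨k, hk⟩ : ∃ k, (F : Set Γ) ⊆ J k :=
      (directed_of_isDirected_le hJmono).exists_mem_subset_of_finset_subset_biUnion hF
    intro γ hγ
    refine mem_iUnion.2 ⟨k + 1, ?_⟩
    rw [hJs]
    refine Or.inr ?_
    exact mem_biUnion (show F ∈ {F : Finset Γ | (F : Set Γ) ⊆ J k} from hk) (mem_iUnion.2 ⟨n, hγ⟩)
  -- the limit point
  let g : Γ → ℝ := I.indicator (e l)
  let D' : Set (K × K) := {x | ∃ F : Finset Γ, (F : Set Γ) ⊆ I ∧ ∃ n, x = d F n}
  have hD'D : D' ⊆ D := by
    rintro x ⟨F, _, n, rfl⟩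
    exact hdD F n
  have hD'c : D'.Countable := by
    have : D' ⊆ ⋃ F ∈ {F : Finset Γ | (F : Set Γ) ⊆ I}, range (d F) := by
      rintro x ⟨F, hF, n, rfl⟩
      exact mem_biUnion (show F ∈ {F : Finset Γ | (F : Set Γ) ⊆ I} from hF) (mem_range_self n)
    refine ((hcntF I hIc).biUnion ?_).mono this
    intro F _
    exact countable_range _
  have hclos : (g, g) ∈ closure (Prod.map e e '' D') := by
    rw [mem_closure_iff_nhds]
    intro t ht
    rw [nhds_prod_eq, Filter.mem_prod_iff] at ht
    obtain ⟨t1, ht1, t2, ht2, ht⟩ := ht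
    obtain ⟨t3, ht3, ht3'⟩ : ∃ t3 ∈ 𝓝 g, t3 ⊆ t1 ∩ t2 := ⟨t1 ∩ t2, Filter.inter_mem ht1 ht2, subset_rfl⟩
    -- basic neighbourhood
    obtain ⟨F0, ε, hε, hF0⟩ : ∃ (F0 : Finset Γ) (ε : ℝ), 0 < ε ∧
        ∀ x : Γ → ℝ, (∀ γ ∈ F0, |x γ - g γ| < ε) → x ∈ t3 := by
      rw [nhds_pi, Filter.mem_pi'] at ht3
      obtain ⟨F0, t, htn, hsub⟩ := ht3
      have h1 : ∀ γ ∈ F0, ∀ᶠ ε in 𝓝[>] (0 : ℝ), Metric.ball (g γ) ε ⊆ t γ := by
        intro γ _
        obtain ⟨r, hr, hrt⟩ := Metric.mem_nhds_iff.1 (htn γ)
        filter_upwards [Ioo_mem_nhdsGT hr] with ε hε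
        exact (Metric.ball_subset_ball hε.2.le).trans hrt
      have h2 := (Filter.eventually_all_finset F0).2 h1
      obtain ⟨ε, hε1, hε2⟩ := (h2.and self_mem_nhdsWithin).exists
      refine ⟨F0, ε, hε2, fun x hx => hsub ?_⟩
      intro γ hγ
      refine hε1 γ hγ ?_
      rw [Metric.mem_ball, Real.dist_eq]
      exact hx γ hγ
    obtain ⟨n, hn⟩ := exists_nat_one_div_lt hε
    let F : Finset Γ := F0.filter (fun γ => γ ∈ I)
    have hF : (F : Set Γ) ⊆ I := by
      intro γ hγ
      exact (Finset.mem_filter.1 hγ).2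
    have hx : ∀ γ ∈ F0, |e (d F n).1 γ - g γ| < ε ∧ |e (d F n).2 γ - g γ| < ε := by
      intro γ hγ
      by_cases hγI : γ ∈ I
      · have : γ ∈ F := Finset.mem_filter.2 ⟨hγ, hγI⟩
        have h := hdF F n γ this
        simp only [g, indicator_of_mem hγI]
        exact ⟨h.1.trans hn, h.2.trans hn⟩
      · have h1 : e (d F n).1 γ = 0 := by
          by_contra hne
          exact hγI (hIclosed F hF n (Or.inl hne))
        have h2 : e (d F n).2 γ = 0 := by
          by_contra hne
          exact hγI (hIclosed F hF n (Or.inr hne))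
        simp only [g, indicator_of_notMem hγI, h1, h2, sub_self, abs_zero]
        exact ⟨hε, hε⟩
    refine ⟨Prod.map e e (d F n), ht ⟨?_, ?_⟩, mem_image_of_mem _ ⟨F, hF, n, rfl⟩⟩
    · exact (ht3' (hF0 _ fun γ hγ => (hx γ hγ).1)).1
    · exact (ht3' (hF0 _ fun γ hγ => (hx γ hγ).2)).2
  have hrange : IsClosed (range e) := (isCompact_range hcont).isClosed
  obtain ⟨c, hc⟩ : g ∈ range e := by
    have h1 : closure (Prod.map e e '' D') ⊆ range e ×ˢ range e := by
      refine closure_minimal ?_ (hrange.prod hrange)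
      rintro _ ⟨x, _, rfl⟩
      exact ⟨mem_range_self _, mem_range_self _⟩
    exact (h1 hclos).1
  refine ⟨c, ?_, D', hD'D, hD'c, ?_⟩
  · rw [hc]
    refine hIc.mono ?_
    intro γ hγ
    by_contra hne
    exact hγ (indicator_of_notMem hne _)
  · have hee : IsEmbedding (Prod.map e e) := he.prodMap he
    rw [hee.isInducing.closure_eq_preimage_closure_image]
    show (e c, e c) ∈ closure (Prod.map e e '' D')
    rw [hc]
    exact hclos


/-- The index order: countable sets of reals, ordered by inclusion. -/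
abbrev Om : Type := {s : Set ℝ // s.Countable}

/-- First cube coordinates: two copies of the index order. -/
abbrev W : Type := Om ⊕ Om

/-- Indices of the closed conditions. -/
abbrev J : Type := (Om × Om) ⊕ ((Om × Om) ⊕ (Om × Om))

/-- The conditions that cut out the closed set, one bit for each condition. -/
noncomputable def viol (x : W → Bool) : J → Bool
  | Sum.inl (a, b) => by
      classical
      exact decide (a ≤ b) && (x (Sum.inl b) && !x (Sum.inl a))
  | Sum.inr (Sum.inl (a, b)) => by
      classical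
      exact decide (a ≤ b) && (x (Sum.inr b) && !x (Sum.inr a))
  | Sum.inr (Sum.inr (a, b)) => !x (Sum.inl a) && !x (Sum.inr b)

theorem continuous_viol : Continuous viol := by
  classical
  have hB : ∀ (g : Bool × Bool → Bool) (u v : W),
      Continuous fun x : W → Bool => g (x u, x v) := by
    intro g u v
    exact (continuous_of_discreteTopology (f := g)).comp
      ((continuous_apply u).prodMk (continuous_apply v))
  refine continuous_pi fun j => ?_
  rcases j with ⟨a, b⟩ | ⟨a, b⟩ | ⟨a, b⟩
  · exact hB (fun p => decide (a ≤ b) && (p.1 && !p.2)) (Sum.inl b) (Sum.inl a)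
  · exact hB (fun p => decide (a ≤ b) && (p.1 && !p.2)) (Sum.inr b) (Sum.inr a)
  · exact hB (fun p => !p.1 && !p.2) (Sum.inl a) (Sum.inr b)

/-- The compact space: a Cantor cube times a power of the group. -/
def KK (G : Type) : Type := (W → Bool) × (J → G)

section
variable (G : Type) [Group G] [TopologicalSpace G] [IsTopologicalGroup G] [CompactSpace G]
  [T2Space G]

instance : TopologicalSpace (KK G) := inferInstanceAs (TopologicalSpace ((W → Bool) × (J → G)))
instance : CompactSpace (KK G) := inferInstanceAs (CompactSpace ((W → Bool) × (J → G)))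
instance : T2Space (KK G) := inferInstanceAs (T2Space ((W → Bool) × (J → G)))

/-- The action: `g` multiplies the `j`-th coordinate exactly when the `j`-th condition fails. -/
noncomputable instance : MulAction G (KK G) where
  smul g k := (k.1, fun j => if viol k.1 j = true then g * k.2 j else k.2 j)
  one_smul k := by
    refine Prod.ext rfl ?_
    funext j
    show (if viol k.1 j = true then 1 * k.2 j else k.2 j) = k.2 j
    split_ifs <;> simp
  mul_smul g h k := by
    refine Prod.ext rfl ?_
    funext j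
    show (if viol k.1 j = true then g * h * k.2 j else k.2 j) =
      (if viol k.1 j = true then g * (if viol k.1 j = true then h * k.2 j else k.2 j)
        else (if viol k.1 j = true then h * k.2 j else k.2 j))
    split_ifs <;> simp [mul_assoc]

variable {G}

theorem smul_fst (g : G) (k : KK G) : (g • k).1 = k.1 := rfl

theorem smul_snd (g : G) (k : KK G) (j : J) :
    (g • k).2 j = if viol k.1 j = true then g * k.2 j else k.2 j := rfl

theorem continuousSMul_KK : ContinuousSMul G (KK G) := by
  refine ⟨?_⟩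
  have h0 : Continuous fun p : G × KK G => p.2.1 := continuous_fst.comp continuous_snd
  have h1 : ∀ j, Continuous fun p : G × KK G => p.2.2 j := fun j =>
    (continuous_apply j).comp (continuous_snd.comp continuous_snd)
  refine Continuous.prodMk h0 (continuous_pi fun j => ?_)
  have hv : Continuous fun p : G × KK G => viol p.2.1 j :=
    (continuous_apply j).comp (continuous_viol.comp h0)
  have hcl : IsClopen {p : G × KK G | viol p.2.1 j = true} :=
    (isClopen_discrete ({true} : Set Bool)).preimage hv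
  refine Continuous.if ?_ (continuous_fst.mul (h1 j)) (h1 j)
  intro a ha
  rw [hcl.frontier_eq] at ha
  exact absurd ha (notMem_empty a)

theorem smul_eq_iff (g : G) (hg : g ≠ 1) (k : KK G) : g • k = k ↔ ∀ j, viol k.1 j = false := by
  constructor
  · intro h j
    by_contra hne
    have ht : viol k.1 j = true := by simpa using hne
    have h2 : (g • k).2 j = k.2 j := by rw [h]
    rw [smul_snd, if_pos ht] at h2
    exact hg (mul_eq_right.1 h2)
  · intro h
    refine Prod.ext rfl ?_
    funext j
    rw [smul_snd, h j]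
    simp

theorem dense_power (V H : Type) [TopologicalSpace H] (o : H) :
    Dense {x : V → H | {v | x v ≠ o}.Countable} := by
  classical
  intro x
  rw [mem_closure_iff_nhds]
  intro t ht
  rw [nhds_pi, Filter.mem_pi'] at ht
  obtain ⟨F, u, hu, hsub⟩ := ht
  refine ⟨fun v => if v ∈ F then x v else o, hsub ?_, ?_⟩
  · intro v hv
    have hv' : v ∈ F := hv
    simp only [hv', if_true]
    exact mem_of_mem_nhds (hu v)
  · refine (F.finite_toSet.subset ?_).countable
    intro v hv
    by_contra hne
    exact hv (if_neg hne)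

/-- The embedding of the space into a power of the line built from an embedding of the group. -/
noncomputable def emb (ψ : G → ℕ → ℝ) (k : KK G) : W ⊕ (J × ℕ) → ℝ
  | Sum.inl w => if k.1 w = true then 1 else 0
  | Sum.inr p => ψ (k.2 p.1) p.2 - ψ 1 p.2

theorem emb_embedding (ψ : G → ℕ → ℝ) (hψ : Continuous ψ) (hinj : Function.Injective ψ) :
    IsEmbedding (emb ψ) := by
  have hB : Continuous fun b : Bool => (if b = true then (1 : ℝ) else 0) :=
    continuous_of_discreteTopology
  have hc : Continuous (emb ψ) := by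
    refine continuous_pi fun i => ?_
    rcases i with w | ⟨j, n⟩
    · have h1 : Continuous fun k : KK G => k.1 w := (continuous_apply w).comp continuous_fst
      exact hB.comp h1
    · have h1 : Continuous fun k : KK G => k.2 j := (continuous_apply j).comp continuous_snd
      have h2 : Continuous fun k : KK G => ψ (k.2 j) n :=
        (continuous_apply n).comp (hψ.comp h1)
      exact h2.sub continuous_const
  have hi : Function.Injective (emb ψ) := by
    intro k k' h
    refine Prod.ext ?_ ?_
    · funext w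
      have := congrFun h (Sum.inl w)
      simp only [emb] at this
      revert this
      cases k.1 w <;> cases k'.1 w <;> simp
    · funext j
      refine hinj ?_
      funext n
      have := congrFun h (Sum.inr (j, n))
      simp only [emb] at this
      linarith
  exact (hc.isClosedEmbedding hi).isEmbedding

theorem emb_dense (ψ : G → ℕ → ℝ) :
    Dense (emb ψ ⁻¹' {x : W ⊕ (J × ℕ) → ℝ | {γ | x γ ≠ 0}.Countable}) := by
  refine ((dense_power W Bool false).prod (dense_power J G 1)).mono ?_
  rintro ⟨x, y⟩ ⟨hx, hy⟩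
  show {γ | emb ψ (x, y) γ ≠ 0}.Countable
  have hy' : ({j | y j ≠ 1} ×ˢ (univ : Set ℕ)).Countable := Countable.prod hy countable_univ
  refine ((hx.image Sum.inl).union (hy'.image Sum.inr)).mono ?_
  rintro (w | ⟨j, n⟩) h
  · refine Or.inl ⟨w, ?_, rfl⟩
    intro hf
    have hf' : x w = false := hf
    apply h
    simp [emb, hf']
  · refine Or.inr ⟨(j, n), ⟨?_, mem_univ _⟩, rfl⟩
    intro hf
    have hf' : y j = 1 := hf
    apply h
    simp [emb, hf']

theorem no_invariant (g : G) (hg : g ≠ 1) (A : Set (KK G)) (hA : Dense A)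
    (hinv : ∀ x ∈ A, g • x ∈ A)
    (Γ : Type) (φ : KK G → (Γ → ℝ)) (hφ : IsEmbedding φ)
    (hAφ : A = φ ⁻¹' {x : Γ → ℝ | {γ : Γ | x γ ≠ 0}.Countable}) : False := by
  classical
  have hsm : Continuous fun k : KK G => g • k :=
    continuousSMul_KK.continuous_smul.comp (continuous_const.prodMk continuous_id)
  have hcnt : ∀ a ∈ A, {γ | φ a γ ≠ 0}.Countable := by
    intro a ha
    rw [hAφ] at ha
    exact ha
  have hcnt' : ∀ a, {γ | φ a γ ≠ 0}.Countable → a ∈ A := by
    intro a ha
    rw [hAφ]
    exact ha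
  -- points of A fixed by the action are dense in the fixed set
  have hfix : ∀ l : KK G, g • l = l → ∀ U : Set (KK G), IsOpen U → l ∈ U →
      ∃ a ∈ A, g • a = a ∧ a ∈ U := by
    intro l hl U hU hlU
    obtain ⟨V, hVo, hlV, hVU⟩ : ∃ V : Set (KK G), IsOpen V ∧ l ∈ V ∧ closure V ⊆ U := by
      obtain ⟨V, hV1, hV2, hV3⟩ := exists_mem_nhds_isClosed_subset (hU.mem_nhds hlU)
      refine ⟨interior V, isOpen_interior, mem_interior_iff_mem_nhds.2 hV1, ?_⟩
      exact (closure_minimal interior_subset hV2).trans hV3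
    let D : Set (KK G × KK G) := {d | d.1 ∈ A ∧ d.1 ∈ V ∧ d.2 = g • d.1}
    have hlD : (l, l) ∈ closure D := by
      rw [mem_closure_iff]
      intro O hO hlO
      have hc : Continuous fun k : KK G => (k, g • k) := continuous_id.prodMk hsm
      have h1 : IsOpen ((fun k : KK G => (k, g • k)) ⁻¹' O ∩ V) := (hO.preimage hc).inter hVo
      have h2 : l ∈ (fun k : KK G => (k, g • k)) ⁻¹' O ∩ V := by
        refine ⟨?_, hlV⟩
        show (l, g • l) ∈ O
        rw [hl]
        exact hlO
      obtain ⟨a, ha1, ha2⟩ := hA.inter_open_nonempty _ h1 ⟨l, h2⟩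
      exact ⟨(a, g • a), ha1.1, ha2, ha1.2, rfl⟩
    obtain ⟨c, hc, D', hD'D, _, hcD'⟩ := key φ hφ D
      (fun d hd => ⟨hcnt _ hd.1, by
        have h2 := hd.2.2
        rw [h2]
        exact hcnt _ (hinv _ hd.1)⟩) l hlD
    have hcD : (c, c) ∈ closure D := closure_mono hD'D hcD'
    refine ⟨c, hcnt' c hc, ?_, ?_⟩
    · have hcl : IsClosed {d : KK G × KK G | d.2 = g • d.1} :=
        isClosed_eq continuous_snd (hsm.comp continuous_fst)
      have : closure D ⊆ {d : KK G × KK G | d.2 = g • d.1} :=
        closure_minimal (fun d hd => hd.2.2) hcl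
      exact (this hcD).symm
    · have hcl : IsClosed {d : KK G × KK G | d.1 ∈ closure V} :=
        isClosed_closure.preimage continuous_fst
      have : closure D ⊆ {d : KK G × KK G | d.1 ∈ closure V} :=
        closure_minimal (fun d hd => subset_closure hd.2.1) hcl
      exact hVU (this hcD)
  -- the two one-sided sets
  let B1 : Set (KK G) := {a | a ∈ A ∧ g • a = a ∧ ∃ s : Om, a.1 (Sum.inl s) = false}
  let B2 : Set (KK G) := {a | a ∈ A ∧ g • a = a ∧ ∃ s : Om, a.1 (Sum.inr s) = false}
  let l0 : KK G := (fun _ => true, fun _ => 1)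
  -- no countable set of reals is everything
  have hnotall : ∀ b : Om, ∃ s : Om, ¬ s ≤ b := by
    intro b
    obtain ⟨r, hr⟩ : ∃ r : ℝ, r ∉ b.1 := by
      by_contra hall
      refine Cardinal.not_countable_real ((b.2).mono fun r _ => ?_)
      by_contra hr
      exact hall ⟨r, hr⟩
    exact ⟨⟨{r}, countable_singleton r⟩, fun h => hr (h rfl)⟩
  have hub : ∀ F : Finset Om, ∃ b : Om, ∀ s ∈ F, s ≤ b := by
    intro F
    refine ⟨⟨⋃ s ∈ F, s.1, F.countable_toSet.biUnion fun s _ => s.2⟩, ?_⟩
    intro s hs r hr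
    exact mem_biUnion (show s ∈ (F : Set Om) from hs) hr
  have hl1 : l0 ∈ closure B1 := by
    rw [mem_closure_iff_nhds]
    intro t ht
    obtain ⟨U, hUt, hU, hl0U⟩ := mem_nhds_iff.1 ht
    -- approximate l0 by a fixed point with a zero on the left
    obtain ⟨l, hlU, hlfix, s, hs⟩ :
        ∃ l ∈ U, g • l = l ∧ ∃ s : Om, l.1 (Sum.inl s) = false := by
      have hU' := hU.mem_nhds hl0U
      have hU'' : (show Set ((W → Bool) × (J → G)) from U) ∈
          𝓝 ((fun _ => true : W → Bool)) ×ˢ 𝓝 ((fun _ => 1 : J → G)) := by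
        rw [← nhds_prod_eq]
        exact hU'
      obtain ⟨t1, ht1, t2, ht2, ht12⟩ := Filter.mem_prod_iff.1 hU''
      rw [nhds_pi, Filter.mem_pi'] at ht1
      obtain ⟨F, u, hu, hsub⟩ := ht1
      obtain ⟨b, hb⟩ := hub (F.preimage Sum.inl (Sum.inl_injective.injOn))
      obtain ⟨s, hs⟩ := hnotall b
      let x : W → Bool := fun w => match w with
        | Sum.inl a => decide (a ≤ b)
        | Sum.inr _ => true
      refine ⟨(x, fun _ => 1), ht12 ⟨hsub ?_, mem_of_mem_nhds ht2⟩, ?_, s, ?_⟩
      · intro w hw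
        have hxw : x w = true := by
          rcases w with a | a
          · have : a ≤ b := hb a (by simpa using hw)
            simpa [x] using this
          · rfl
        show x w ∈ u w
        rw [hxw]
        exact mem_of_mem_nhds (hu w)
      · rw [smul_eq_iff g hg]
        rintro (⟨a, c⟩ | ⟨a, c⟩ | ⟨a, c⟩)
        · show (decide (a ≤ c) && (decide (c ≤ b) && !decide (a ≤ b))) = false
          by_cases h1 : a ≤ c
          · by_cases h2 : c ≤ b
            · simp [h1.trans h2]
            · simp [h2]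
          · simp [h1]
        · show (decide (a ≤ c) && (true && !true)) = false
          simp
        · show (!decide (a ≤ b) && !true) = false
          simp
      · show decide (s ≤ b) = false
        simpa using hs
    have hV : IsOpen (U ∩ {k : KK G | k.1 (Sum.inl s) = false}) := by
      refine hU.inter ?_
      have : Continuous fun k : KK G => k.1 (Sum.inl s) :=
        (continuous_apply _).comp continuous_fst
      exact (isOpen_discrete {false}).preimage this
    obtain ⟨a, haA, hafix, haU, has⟩ := hfix l hlfix _ hV ⟨hlU, hs⟩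
    exact ⟨a, hUt haU, haA, hafix, s, has⟩
  have hl2 : l0 ∈ closure B2 := by
    rw [mem_closure_iff_nhds]
    intro t ht
    obtain ⟨U, hUt, hU, hl0U⟩ := mem_nhds_iff.1 ht
    obtain ⟨l, hlU, hlfix, s, hs⟩ :
        ∃ l ∈ U, g • l = l ∧ ∃ s : Om, l.1 (Sum.inr s) = false := by
      have hU' := hU.mem_nhds hl0U
      have hU'' : (show Set ((W → Bool) × (J → G)) from U) ∈
          𝓝 ((fun _ => true : W → Bool)) ×ˢ 𝓝 ((fun _ => 1 : J → G)) := by
        rw [← nhds_prod_eq]
        exact hU'
      obtain ⟨t1, ht1, t2, ht2, ht12⟩ := Filter.mem_prod_iff.1 hU''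
      rw [nhds_pi, Filter.mem_pi'] at ht1
      obtain ⟨F, u, hu, hsub⟩ := ht1
      obtain ⟨b, hb⟩ := hub (F.preimage Sum.inr (Sum.inr_injective.injOn))
      obtain ⟨s, hs⟩ := hnotall b
      let x : W → Bool := fun w => match w with
        | Sum.inl _ => true
        | Sum.inr a => decide (a ≤ b)
      refine ⟨(x, fun _ => 1), ht12 ⟨hsub ?_, mem_of_mem_nhds ht2⟩, ?_, s, ?_⟩
      · intro w hw
        have hxw : x w = true := by
          rcases w with a | a
          · rfl
          · have : a ≤ b := hb a (by simpa using hw)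
            simpa [x] using this
        show x w ∈ u w
        rw [hxw]
        exact mem_of_mem_nhds (hu w)
      · rw [smul_eq_iff g hg]
        rintro (⟨a, c⟩ | ⟨a, c⟩ | ⟨a, c⟩)
        · show (decide (a ≤ c) && (true && !true)) = false
          simp
        · show (decide (a ≤ c) && (decide (c ≤ b) && !decide (a ≤ b))) = false
          by_cases h1 : a ≤ c
          · by_cases h2 : c ≤ b
            · simp [h1.trans h2]
            · simp [h2]
          · simp [h1]
        · show (!true && !decide (c ≤ b)) = false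
          simp
      · show decide (s ≤ b) = false
        simpa using hs
    have hV : IsOpen (U ∩ {k : KK G | k.1 (Sum.inr s) = false}) := by
      refine hU.inter ?_
      have : Continuous fun k : KK G => k.1 (Sum.inr s) :=
        (continuous_apply _).comp continuous_fst
      exact (isOpen_discrete {false}).preimage this
    obtain ⟨a, haA, hafix, haU, has⟩ := hfix l hlfix _ hV ⟨hlU, hs⟩
    exact ⟨a, hUt haU, haA, hafix, s, has⟩
  have hl12 : (l0, l0) ∈ closure (B1 ×ˢ B2) := by
    rw [closure_prod_eq]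
    exact ⟨hl1, hl2⟩
  obtain ⟨c, _, D', hD'D, hD'c, hcD'⟩ := key φ hφ (B1 ×ˢ B2)
    (fun d hd => ⟨hcnt _ hd.1.1, hcnt _ hd.2.1⟩) l0 hl12
  have h1 : ∀ d : KK G × KK G, ∃ s : Om, d ∈ D' → d.1.1 (Sum.inl s) = false := by
    intro d
    by_cases hd : d ∈ D'
    · obtain ⟨s, hs⟩ := (hD'D hd).1.2.2
      exact ⟨s, fun _ => hs⟩
    · exact ⟨⟨∅, countable_empty⟩, fun h => absurd h hd⟩
  have h2 : ∀ d : KK G × KK G, ∃ s : Om, d ∈ D' → d.2.1 (Sum.inr s) = false := by
    intro d
    by_cases hd : d ∈ D'
    · obtain ⟨s, hs⟩ := (hD'D hd).2.2.2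
      exact ⟨s, fun _ => hs⟩
    · exact ⟨⟨∅, countable_empty⟩, fun h => absurd h hd⟩
  choose s1 hs1 using h1
  choose s2 hs2 using h2
  let a1 : Om := ⟨⋃ d ∈ D', (s1 d).1, hD'c.biUnion fun d _ => (s1 d).2⟩
  let a2 : Om := ⟨⋃ d ∈ D', (s2 d).1, hD'c.biUnion fun d _ => (s2 d).2⟩
  have ha1 : ∀ d ∈ D', s1 d ≤ a1 := fun d hd r hr => mem_biUnion hd hr
  have ha2 : ∀ d ∈ D', s2 d ≤ a2 := fun d hd r hr => mem_biUnion hd hr
  have hcc : (c, c) ∈ {d : KK G × KK G | d.1.1 (Sum.inl a1) = false ∧
      d.2.1 (Sum.inr a2) = false ∧ g • d.1 = d.1} := by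
    have hcl : IsClosed {d : KK G × KK G | d.1.1 (Sum.inl a1) = false ∧
        d.2.1 (Sum.inr a2) = false ∧ g • d.1 = d.1} := by
      refine IsClosed.inter (isClosed_eq ?_ continuous_const)
        (IsClosed.inter (isClosed_eq ?_ continuous_const) (isClosed_eq ?_ continuous_fst))
      · exact (continuous_apply _).comp (continuous_fst.comp continuous_fst)
      · exact (continuous_apply _).comp (continuous_fst.comp continuous_snd)
      · exact hsm.comp continuous_fst
    refine closure_minimal ?_ hcl hcD'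
    intro d hd
    have hdB := hD'D hd
    refine ⟨?_, ?_, hdB.1.2.1⟩
    · have hv := (smul_eq_iff g hg d.1).1 hdB.1.2.1 (Sum.inl (s1 d, a1))
      have hv' : (decide (s1 d ≤ a1) && (d.1.1 (Sum.inl a1) && !d.1.1 (Sum.inl (s1 d)))) = false :=
        hv
      rw [hs1 d hd] at hv'
      simpa [ha1 d hd] using hv'
    · have hv := (smul_eq_iff g hg d.2).1 hdB.2.2.1 (Sum.inr (Sum.inl (s2 d, a2)))
      have hv' : (decide (s2 d ≤ a2) && (d.2.1 (Sum.inr a2) && !d.2.1 (Sum.inr (s2 d)))) = false :=
        hv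
      rw [hs2 d hd] at hv'
      simpa [ha2 d hd] using hv'
  obtain ⟨hc1, hc2, hc3⟩ := hcc
  have hv := (smul_eq_iff g hg c).1 hc3 (Sum.inr (Sum.inr (a1, a2)))
  have hv' : (!c.1 (Sum.inl a1) && !c.1 (Sum.inr a2)) = false := hv
  have hc1' : c.1 (Sum.inl a1) = false := hc1
  have hc2' : c.1 (Sum.inr a2) = false := hc2
  rw [hc1', hc2'] at hv'
  simp at hv'

theorem faithful_KK : FaithfulSMul G (KK G) := by
  refine ⟨?_⟩
  intro g h hgh
  let s0 : Om := ⟨∅, countable_empty⟩
  let k : KK G := (fun _ => false, fun _ => 1)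
  have h1 : (g • k).2 (Sum.inr (Sum.inr (s0, s0))) = (h • k).2 (Sum.inr (Sum.inr (s0, s0))) := by
    rw [hgh k]
  rw [smul_snd, smul_snd] at h1
  have hv : viol k.1 (Sum.inr (Sum.inr (s0, s0))) = true := rfl
  rw [if_pos hv, if_pos hv] at h1
  simpa [k] using h1

end

/-- Every nontrivial compact metrizable group acts faithfully and continuously on a Valdivia
compact space in such a way that no dense Sigma-subset is invariant, not even under one
element of the group other than the identity. -/
theorem result (G : Type) [Group G] [TopologicalSpace G] [IsTopologicalGroup G]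
    [CompactSpace G] [T2Space G] [SecondCountableTopology G] [Nontrivial G] :
    ∃ (K : Type) (_ : TopologicalSpace K) (_ : CompactSpace K) (_ : T2Space K)
      (_ : MulAction G K),
      ContinuousSMul G K ∧ FaithfulSMul G K ∧
      (∃ A : Set K, Dense A ∧ IsSigmaSubset A) ∧
      ∀ A : Set K, Dense A → IsSigmaSubset A → ∀ g : G, g ≠ 1 → ∃ a ∈ A, g • a ∉ A := by
  obtain ⟨f, hf⟩ := TopologicalSpace.exists_embedding_l_infty G
  have hψ : Continuous fun (x : G) (n : ℕ) => f x n :=
    BoundedContinuousFunction.continuous_coe.comp hf.continuous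
  have hinj : Function.Injective fun (x : G) (n : ℕ) => f x n := by
    intro x y h
    exact hf.injective (BoundedContinuousFunction.ext fun n => congrFun h n)
  refine ⟨KK G, inferInstance, inferInstance, inferInstance, inferInstance, continuousSMul_KK,
    faithful_KK, ⟨_, emb_dense fun x n => f x n, W ⊕ (J × ℕ), _, emb_embedding _ hψ hinj, rfl⟩,
    ?_⟩
  rintro A hA ⟨Γ, φ, hφ, hAφ⟩ g hg
  by_contra hcon
  refine no_invariant g hg A hA ?_ Γ φ hφ hAφ
  intro x hx
  by_contra hgx
  exact hcon ⟨x, hx, hgx⟩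

end Pool.Agent.Results.MP_42f98c_gt.AllMetrizableGroups
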