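import Pool.Agent.Results.MP_42f98c_gt.AllMetrizableGroups

set_option autoImplicit false

namespace Pool.Agent.Results.MP_42f98c_gt.NegatedForm

open Set Topology

/-- `A` is a Sigma-subset of `K`: the preimage of the Sigma-product under an embedding of `K`
into a power of the line. -/
def IsSigmaSubset {K : Type} [TopologicalSpace K] (A : Set K) : Prop :=
  ∃ (Γ : Type) (φ : K → (Γ → ℝ)), IsEmbedding φ ∧
    A = φ ⁻¹' {x : Γ → ℝ | {γ : Γ | x γ ≠ 0}.Countable}

/-- There are a Valdivia compact space `K` and a compact abelian group `G` of automorphisms of `K`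
such that no dense Sigma-subset of `K` is invariant under all elements of `G`. -/
theorem result :
    ∃ (K G : Type) (_ : TopologicalSpace K) (_ : CompactSpace K) (_ : T2Space K)
      (_ : CommGroup G) (_ : TopologicalSpace G) (_ : IsTopologicalGroup G)
      (_ : CompactSpace G) (_ : T2Space G) (_ : MulAction G K),
      ContinuousSMul G K ∧ FaithfulSMul G K ∧
      (∃ A : Set K, Dense A ∧ IsSigmaSubset A) ∧
      ∀ A : Set K, Dense A → IsSigmaSubset A → ∃ g : G, ¬ (∀ a ∈ A, g • a ∈ A) := by
  letI : TopologicalSpace (Multiplicative (ZMod 2)) := ⊥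
  haveI : DiscreteTopology (Multiplicative (ZMod 2)) := ⟨rfl⟩
  haveI : Finite (Multiplicative (ZMod 2)) := inferInstanceAs (Finite (ZMod 2))
  haveI : Nontrivial (Multiplicative (ZMod 2)) := inferInstanceAs (Nontrivial (ZMod 2))
  obtain ⟨K, i1, i2, i3, i4, h1, h2, h3, h4⟩ :=
    AllMetrizableGroups.result (Multiplicative (ZMod 2))
  refine ⟨K, Multiplicative (ZMod 2), i1, i2, i3, inferInstance, inferInstance, inferInstance,
    inferInstance, inferInstance, i4, h1, h2, h3, ?_⟩
  intro A hA hS
  obtain ⟨g, hg⟩ := exists_ne (1 : Multiplicative (ZMod 2))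
  obtain ⟨a, ha, hga⟩ := h4 A hA hS g hg
  exact ⟨g, fun h => hga (h a ha)⟩

end Pool.Agent.Results.MP_42f98c_gt.NegatedForm
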